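import Pool.Agent.W889.FO.Cpl
import Pool.Agent.H533R2.VO.Spec

set_option autoImplicit false

/-! From Borel classes of structures to first-order theories in relational languages. -/

namespace Pool.Agent.R617.VT

open FirstOrder FirstOrder.Language
open Pool.Agent.W889.VC (BP)
open Pool.Agent.W889.FO
open Pool.Agent.H533R2.VO (RS RIso Dich)

variable {L : FirstOrder.Language.{0, 0}} [L.IsRelational]

section code

variable (e : (Σ n, L.Relations n) → ℕ)

open Classical in
/-- the arities of the code -/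
noncomputable def ar (i : ℕ) : ℕ := if h : ∃ p, e p = i then h.choose.1 else 0

variable {e} (he : Function.Injective e)

include he in
theorem ar_e (p : Σ n, L.Relations n) : ar e (e p) = p.1 := by
  unfold ar
  have h : ∃ q, e q = e p := ⟨p, rfl⟩
  rw [dif_pos h]
  exact congrArg Sigma.fst (he h.choose_spec)

omit [L.IsRelational] in
theorem ar_not {i : ℕ} (h : ¬ ∃ p, e p = i) : ar e i = 0 := dif_neg h

/-- decoding -/
@[reducible] def dc (x : RS (ar e)) : L.Structure ℕ where
  funMap := fun {_} f => isEmptyElim f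
  RelMap := fun {n} R v => x (e ⟨n, R⟩) (fun k => v (Fin.cast (ar_e he ⟨n, R⟩) k)) = true

open Classical in
/-- coding -/
noncomputable def cd (S : L.Structure ℕ) : RS (ar e) := fun i v =>
  decide (∃ (p : Σ n, L.Relations n) (h : e p = i), @Structure.RelMap L ℕ S p.1 p.2
    (fun k => v (Fin.cast (show p.1 = ar e i by rw [← h, ar_e he]) k)))

theorem cd_e (S : L.Structure ℕ) {n : ℕ} (R : L.Relations n) (v : Fin n → ℕ) :
    cd he S (e ⟨n, R⟩) (fun k => v (Fin.cast (ar_e he ⟨n, R⟩) k)) = true ↔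
      @Structure.RelMap L ℕ S n R v := by
  classical
  unfold cd
  rw [decide_eq_true_iff]
  constructor
  · rintro ⟨p, h, h'⟩
    obtain rfl := he h
    exact h'
  · intro h
    exact ⟨⟨n, R⟩, rfl, h⟩

/-- the relations without name are empty -/
def Nrm (x : RS (ar e)) : Prop := ∀ i, (¬ ∃ p, e p = i) → ∀ v, x i v = false

theorem nrm_cd (S : L.Structure ℕ) : Nrm (cd he S) := by
  intro i hi v
  unfold cd
  rw [decide_eq_false_iff_not]
  rintro ⟨p, h, -⟩
  exact hi ⟨p, h⟩

theorem rel_dc (x : RS (ar e)) {n : ℕ} (R : L.Relations n) (v : Fin n → ℕ) :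
    @Structure.RelMap L ℕ (dc he x) n R v ↔
      x (e ⟨n, R⟩) (fun k => v (Fin.cast (ar_e he ⟨n, R⟩) k)) = true := Iff.rfl

theorem siso_dc_cd (S : L.Structure ℕ) : SIso S (dc he (cd he S)) := by
  obtain ⟨f, -⟩ := siso_of (S := S) (S' := dc he (cd he S)) (Equiv.refl ℕ) (fun n R v =>
    cd_e he S R v)
  exact ⟨f⟩

theorem siso_of_iso {x y : RS (ar e)} (h : RIso x y) : SIso (dc he x) (dc he y) := by
  obtain ⟨σ, hσ⟩ := h
  obtain ⟨f, -⟩ := siso_of (S := dc he x) (S' := dc he y) σ (fun n R v => by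
    rw [rel_dc, rel_dc]
    have := hσ (e ⟨n, R⟩) (fun k => v (Fin.cast (ar_e he ⟨n, R⟩) k))
    rw [← this]
    exact Iff.rfl)
  exact ⟨f⟩

theorem iso_of_siso {x y : RS (ar e)} (hx : Nrm x) (hy : Nrm y)
    (h : SIso (dc he x) (dc he y)) : RIso x y := by
  obtain ⟨f⟩ := h
  let σ : Equiv.Perm ℕ := @FirstOrder.Language.Equiv.toEquiv L ℕ ℕ (dc he x) (dc he y) f
  refine ⟨σ, fun i v => ?_⟩
  by_cases hi : ∃ p, e p = i
  · obtain ⟨⟨n, R⟩, rfl⟩ := hi
    have hn := ar_e he ⟨n, R⟩
    have h1 := iso_rel f R (fun k => v (Fin.cast hn.symm k))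
    rw [rel_dc, rel_dc] at h1
    rw [Bool.eq_iff_iff]
    exact h1
  · rw [hx i hi, hy i hi]

omit [L.IsRelational] in
theorem nrm_iso {x y : RS (ar e)} (h : RIso x y) (hx : Nrm x) : Nrm y := by
  obtain ⟨σ, hσ⟩ := h
  intro i hi v
  have := hσ i (⇑σ.symm ∘ v)
  have e1 : (⇑σ ∘ (⇑σ.symm ∘ v)) = v := by
    funext j
    exact σ.apply_symm_apply _
  rw [e1, hx i hi] at this
  exact this

theorem cd_dc {x : RS (ar e)} (hx : Nrm x) : cd he (dc he x) = x := by
  funext i v
  by_cases hi : ∃ p, e p = i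
  · obtain ⟨⟨n, R⟩, rfl⟩ := hi
    have hn := ar_e he ⟨n, R⟩
    have h1 := cd_e he (dc he x) R (fun k => v (Fin.cast hn.symm k))
    rw [rel_dc] at h1
    rw [Bool.eq_iff_iff]
    exact h1
  · rw [hx i hi, nrm_cd he _ i hi]

/-- the codes of the models of `T` -/
def Md (T : L.Theory) : Set (RS (ar e)) := {x | Nrm x ∧ @Theory.Model L ℕ (dc he x) T}

theorem md_iso {T : L.Theory} {x y : RS (ar e)} (h : RIso x y) (hx : x ∈ Md he T) :
    y ∈ Md he T := ⟨nrm_iso h hx.1, (siso_of_iso he h).model hx.2⟩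

theorem riso_symm {a : ℕ → ℕ} {x y : RS a} (h : RIso x y) : RIso y x := by
  obtain ⟨σ, h⟩ := h
  refine ⟨σ.symm, fun i v => ?_⟩
  rw [← h]
  congr 1
  funext j
  exact σ.apply_symm_apply _

theorem md_meas [Countable (Σ n, L.Relations n)] (T : L.Theory) : MeasurableSet (Md he T) := by
  have hsc : Countable L.Sentence := countable_sentence
  have hat : ∀ (i : ℕ) (v : Fin (ar e i) → ℕ), BP (fun x : RS (ar e) => x i v = true) := by
    intro i v
    have h1 : Measurable fun x : RS (ar e) => x i v :=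
      (measurable_pi_apply v).comp (measurable_pi_apply i)
    exact h1 (measurableSet_singleton true)
  have h1 : BP (fun x : RS (ar e) => Nrm x) := by
    refine (BP.all fun i => (BP.const (¬ ∃ p, e p = i)).imp (BP.all fun v =>
      (hat i v).not)).congr fun x => ?_
    simp only [Bool.not_eq_true]
    exact Iff.rfl
  have h2 : BP (fun x : RS (ar e) => @Theory.Model L ℕ (dc he x) T) := by
    have hT' : Countable T := Subtype.countable
    have h3 : BP (fun x : RS (ar e) => ∀ φ : T, @Sentence.Realize L ℕ (dc he x) φ.1) :=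
      BP.all fun φ => bp_sentence (fun n R v => hat _ _) φ.1
    refine h3.congr fun x => ?_
    rw [ax_iff]
    exact ⟨fun h φ hφ => h ⟨φ, hφ⟩, fun h φ => h φ.1 φ.2⟩
  exact h1.and h2

/-- The dichotomy for the codes of the models gives the dichotomy for the theory. -/
theorem vaught_of {T : L.Theory} (h : Dich (Md he T)) : Vaught L T := by
  rcases h with ⟨f, hf⟩ | ⟨g, hg, hgB, hgi⟩
  · left
    refine ⟨fun n => dc he (f n), fun S hS => ?_⟩
    obtain ⟨n, hn⟩ := hf (cd he S) ⟨nrm_cd he S, (siso_dc_cd he S).model hS⟩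
    exact ⟨n, (siso_dc_cd he S).trans (siso_of_iso he hn).symm⟩
  · right
    refine ⟨fun c => dc he (g c), fun c => (hgB c).2, fun c d hcd =>
      hgi c d (iso_of_siso he (hgB c).1 (hgB d).1 hcd), fun n R v => ?_⟩
    have h4 : Continuous fun c => g c (e ⟨n, R⟩) (fun k => v (Fin.cast (ar_e he ⟨n, R⟩) k)) :=
      (continuous_apply _).comp ((continuous_apply _).comp hg)
    exact (isClopen_discrete {true}).preimage h4

end code

end Pool.Agent.R617.VT
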