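import Pool.Agent.TH783.Pol.Str
import Pool.Agent.R617.VT.Trans

set_option autoImplicit false

/-! Classes closed under adding and deleting tuples. -/

namespace Pool.Agent.R617.VT

open FirstOrder FirstOrder.Language
open Pool.Agent.H533R2.VO (RS RIso Dich)

variable {a : ℕ → ℕ}

/-- `y` arises from `x` by adding tuples to the relations `i` with `ε i = true` and by deleting
tuples from the other ones; the relations of arity at most one do not change -/
structure Stp (ε : ℕ → Bool) (x y : RS a) : Prop where
  low : ∀ i, a i < 2 → y i = x i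
  add : ∀ i, 2 ≤ a i → ε i = true → ∀ t, x i t = true → y i t = true
  del : ∀ i, 2 ≤ a i → ε i = false → ∀ t, y i t = true → x i t = true

/-- complement of the relations `i` with `ε i = true` -/
def fl (ε : ℕ → Bool) (x : RS a) : RS a :=
  fun i v => if 2 ≤ a i ∧ ε i = true then !(x i v) else x i v

theorem fl_fl (ε : ℕ → Bool) (x : RS a) : fl ε (fl ε x) = x := by
  funext i v
  unfold fl
  by_cases h : 2 ≤ a i ∧ ε i = true
  · simp only [if_pos h, Bool.not_not]
  · simp only [if_neg h]

theorem fl_iso {ε : ℕ → Bool} {x y : RS a} (h : RIso x y) : RIso (fl ε x) (fl ε y) := by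
  obtain ⟨σ, h⟩ := h
  refine ⟨σ, fun i v => ?_⟩
  unfold fl
  by_cases hi : 2 ≤ a i ∧ ε i = true
  · simp only [if_pos hi, h]
  · simp only [if_neg hi, h]

theorem fl_iso' {ε : ℕ → Bool} {x y : RS a} (h : RIso (fl ε x) (fl ε y)) : RIso x y := by
  have := fl_iso (ε := ε) h
  rwa [fl_fl, fl_fl] at this

theorem fl_cont (ε : ℕ → Bool) : Continuous (fl (a := a) ε) := by
  refine continuous_pi fun i => continuous_pi fun v => ?_
  unfold fl
  have h1 : Continuous fun x : RS a => x i v := (continuous_apply v).comp (continuous_apply i)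
  by_cases hi : 2 ≤ a i ∧ ε i = true
  · simp only [if_pos hi]
    exact (continuous_of_discreteTopology (f := fun b : Bool => !b)).comp h1
  · simp only [if_neg hi]
    exact h1

theorem unate (a : ℕ → ℕ) (ε : ℕ → Bool) (K : Set (RS a)) (hK : MeasurableSet K)
    (hinv : ∀ x y, RIso x y → (x ∈ K ↔ y ∈ K)) (hcl : ∀ x ∈ K, ∀ y, Stp ε x y → y ∈ K) :
    Dich K := by
  have hm : Measurable (fl (a := a) ε) := (fl_cont ε).measurable
  have key := Pool.Agent.TH783.Pol.mono_main a (fl ε ⁻¹' K) (hm hK)
    (fun x y h => hinv _ _ (fl_iso h)) (fun x hx y h1 h2 => hcl _ hx _ {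
      low := fun i hi => by
        have hi' : ¬ 2 ≤ a i := by omega
        funext v
        unfold fl
        rw [if_neg fun h => hi' h.1, if_neg fun h => hi' h.1, h1 i hi']
      add := fun i hi hε t ht => by
        unfold fl at ht ⊢
        rw [if_pos ⟨hi, hε⟩] at ht ⊢
        cases hy : y i t
        · rfl
        · rw [h2 i t hy] at ht
          exact absurd ht (by decide)
      del := fun i hi hε t ht => by
        unfold fl at ht ⊢
        rw [if_neg fun h => by rw [hε] at h; exact absurd h.2 (by decide)] at ht ⊢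
        exact h2 i t ht })
  rcases key with ⟨f, hf⟩ | ⟨g, hg, hgB, hgi⟩
  · left
    refine ⟨fun n => fl ε (f n), fun x hx => ?_⟩
    obtain ⟨n, hn⟩ := hf (fl ε x) (by
      show fl ε (fl ε x) ∈ K
      rw [fl_fl]
      exact hx)
    refine ⟨n, fl_iso' (ε := ε) ?_⟩
    rwa [fl_fl]
  · right
    exact ⟨fun c => fl ε (g c), (fl_cont ε).comp hg, hgB, fun c d h => hgi c d (fl_iso' h)⟩

/-! ### formulas -/

section formulas

variable {L : FirstOrder.Language.{0, 0}}

/-- The occurrences of the relation symbols of arity at least two have the sign given by `ε`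
(if `b = true`) or the opposite sign (if `b = false`). -/
def Sgn (ε : ∀ n, L.Relations n → Bool) :
    ∀ {α : Type} {n : ℕ}, L.BoundedFormula α n → Bool → Prop
  | _, _, .falsum, _ => True
  | _, _, .equal _ _, _ => True
  | _, _, @BoundedFormula.rel _ _ _ l R _, b => 2 ≤ l → ε l R = b
  | _, _, .imp φ ψ, b => Sgn ε φ (!b) ∧ Sgn ε ψ b
  | _, _, .all φ, b => Sgn ε φ b

section

variable {ε : ∀ n, L.Relations n → Bool} {α : Type} {n : ℕ} {b : Bool}

theorem sgn_rel {l : ℕ} {R : L.Relations l} {ts : Fin l → L.Term (α ⊕ Fin n)} :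
    Sgn ε (BoundedFormula.rel R ts) b ↔ (2 ≤ l → ε l R = b) := by
  simp only [Sgn]

theorem sgn_imp {φ ψ : L.BoundedFormula α n} :
    Sgn ε (BoundedFormula.imp φ ψ) b ↔ Sgn ε φ (!b) ∧ Sgn ε ψ b := by
  simp only [Sgn]

theorem sgn_all {φ : L.BoundedFormula α (n + 1)} :
    Sgn ε (BoundedFormula.all φ) b ↔ Sgn ε φ b := by
  simp only [Sgn]

end

variable [L.IsRelational]

theorem term_rel {M : Type} {β : Type} (S S' : L.Structure M) (t : L.Term β) (v : β → M) :
    @Term.realize L M S β v t = @Term.realize L M S' β v t := by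
  cases t with
  | var i => rfl
  | func f ts => exact isEmptyElim f

/-- the same for structures -/
structure SStp {M : Type} (ε : ∀ n, L.Relations n → Bool) (S S' : L.Structure M) : Prop where
  low : ∀ n (R : L.Relations n), n < 2 → ∀ t, @Structure.RelMap L M S' n R t ↔
    @Structure.RelMap L M S n R t
  add : ∀ n (R : L.Relations n), 2 ≤ n → ε n R = true → ∀ t, @Structure.RelMap L M S n R t →
    @Structure.RelMap L M S' n R t
  del : ∀ n (R : L.Relations n), 2 ≤ n → ε n R = false → ∀ t, @Structure.RelMap L M S' n R t →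
    @Structure.RelMap L M S n R t

theorem sgn_real {M : Type} {ε : ∀ n, L.Relations n → Bool} {S S' : L.Structure M}
    (h : SStp ε S S') {α : Type} {n : ℕ} (φ : L.BoundedFormula α n) :
    ∀ (v : α → M) (xs : Fin n → M),
      (Sgn ε φ true → @BoundedFormula.Realize L M S α n φ v xs →
        @BoundedFormula.Realize L M S' α n φ v xs) ∧
      (Sgn ε φ false → @BoundedFormula.Realize L M S' α n φ v xs →
        @BoundedFormula.Realize L M S α n φ v xs) := by
  induction φ with
  | falsum => exact fun v xs => ⟨fun _ h => h, fun _ h => h⟩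
  | equal t1 t2 =>
    intro v xs
    have e : @BoundedFormula.Realize L M S _ _ (BoundedFormula.equal t1 t2) v xs ↔
        @BoundedFormula.Realize L M S' _ _ (BoundedFormula.equal t1 t2) v xs := by
      show @Term.realize L M S _ _ t1 = @Term.realize L M S _ _ t2 ↔
        @Term.realize L M S' _ _ t1 = @Term.realize L M S' _ _ t2
      rw [term_rel S S' t1, term_rel S S' t2]
    exact ⟨fun _ => e.1, fun _ => e.2⟩
  | @rel n l R ts =>
    intro v xs
    have e : (fun i => @Term.realize L M S _ (Sum.elim v xs) (ts i)) =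
        fun i => @Term.realize L M S' _ (Sum.elim v xs) (ts i) :=
      funext fun i => term_rel S S' (ts i) _
    have e1 : @BoundedFormula.Realize L M S _ _ (BoundedFormula.rel R ts) v xs ↔
        @Structure.RelMap L M S _ R (fun i => @Term.realize L M S' _ (Sum.elim v xs) (ts i)) := by
      rw [← e]
      exact Iff.rfl
    have e2 : @BoundedFormula.Realize L M S' _ _ (BoundedFormula.rel R ts) v xs ↔
        @Structure.RelMap L M S' _ R (fun i => @Term.realize L M S' _ (Sum.elim v xs) (ts i)) :=
      Iff.rfl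
    rw [e1, e2]
    by_cases hl : 2 ≤ l
    · exact ⟨fun h1 => h.add l R hl (sgn_rel.1 h1 hl) _,
        fun h1 => h.del l R hl (sgn_rel.1 h1 hl) _⟩
    · have := h.low l R (by omega) (fun i => @Term.realize L M S' _ (Sum.elim v xs) (ts i))
      exact ⟨fun _ => this.2, fun _ => this.1⟩
  | imp φ ψ ih1 ih2 =>
    intro v xs
    constructor
    · intro h h3 h4
      obtain ⟨h1, h2⟩ := sgn_imp.1 h
      exact (ih2 v xs).1 h2 (h3 ((ih1 v xs).2 h1 h4))
    · intro h h3 h4
      obtain ⟨h1, h2⟩ := sgn_imp.1 h
      exact (ih2 v xs).2 h2 (h3 ((ih1 v xs).1 h1 h4))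
  | all φ ih =>
    intro v xs
    constructor
    · intro h1 h3 x
      exact (ih v _).1 (sgn_all.1 h1) (h3 x)
    · intro h1 h3 x
      exact (ih v _).2 (sgn_all.1 h1) (h3 x)

end formulas

end Pool.Agent.R617.VT
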