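import Pool.Agent.R617.VT.Unate
import Pool.Agent.W889.FO.St0

set_option autoImplicit false

/-! Theories in which every relation symbol of arity at least two occurs with one sign. -/

namespace Pool.Agent.R617.VT

open FirstOrder FirstOrder.Language
open Pool.Agent.W889.FO
open Pool.Agent.H533R2.VO (RS RIso Dich)

variable {L : FirstOrder.Language.{0, 0}} [L.IsRelational]

open Classical in
theorem unate_fo [Countable (Σ n, L.Relations n)] (ε : ∀ n, L.Relations n → Bool) (T : L.Theory)
    (hT : ∀ φ ∈ T, Sgn ε φ true) : Vaught L T := by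
  obtain ⟨e, he⟩ := Countable.exists_injective_nat (Σ n, L.Relations n)
  let ε' : ℕ → Bool := fun i => if h : ∃ p, e p = i then ε h.choose.1 h.choose.2 else false
  have hε : ∀ p : Σ n, L.Relations n, ε' (e p) = ε p.1 p.2 := by
    intro p
    have h : ∃ q, e q = e p := ⟨p, rfl⟩
    have h1 : ε' (e p) = ε h.choose.1 h.choose.2 := dif_pos h
    rw [h1, he h.choose_spec]
  refine vaught_of he (unate (ar e) ε' (Md he T) (md_meas he T)
    (fun x y h => ⟨md_iso he h, md_iso he (riso_symm h)⟩) ?_)
  rintro x ⟨hx, hm⟩ y h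
  refine ⟨fun i hi v => ?_, ?_⟩
  · have h0 : ar e i < 2 := by rw [ar_not hi]; norm_num
    rw [h.low i h0]
    exact hx i hi v
  · rw [ax_iff] at hm ⊢
    intro φ hφ
    have hs : SStp ε (dc he x) (dc he y) := {
      low := fun n R hn t => by
        rw [rel_dc, rel_dc, h.low _ (by rw [ar_e he]; exact hn)]
      add := fun n R hn hR t ht => by
        rw [rel_dc] at ht ⊢
        exact h.add _ (by rw [ar_e he]; exact hn) (by rw [hε]; exact hR) _ ht
      del := fun n R hn hR t ht => by
        rw [rel_dc] at ht ⊢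
        exact h.del _ (by rw [ar_e he]; exact hn) (by rw [hε]; exact hR) _ ht }
    exact (sgn_real hs φ _ _).1 (hT φ hφ) (hm φ hφ)

end Pool.Agent.R617.VT
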